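import Mathlib
import Pool.Agent.Helper40.Nil.Stmts3

/-! Module FINL. -/

set_option autoImplicit false

namespace Pool.Agent.Helper40.Nil

universe u

/-- a finitely generated subfield of the algebraic closure of a local field -/
theorem st_FINL : ST_FINL.{u} := by
  intro L _ _ _ F _ S hS σ
  let nfA : NormedField (AlgebraicClosure L) := spectralNorm.normedField L (AlgebraicClosure L)
  let M : IntermediateField L (AlgebraicClosure L) := IntermediateField.adjoin L (σ '' S)
  have hfd : FiniteDimensional L M := by
    have : Finite (σ '' (S : Set F)) := (S.finite_toSet.image σ).to_subtype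
    apply IntermediateField.finiteDimensional_adjoin
    intro x _
    exact Algebra.IsIntegral.isIntegral x
  have hmem : ∀ x, σ x ∈ M := by
    have h1 : Subfield.closure (S : Set F) ≤ M.toSubfield.comap σ := by
      rw [Subfield.closure_le]
      intro x hx
      exact IntermediateField.subset_adjoin _ _ ⟨x, hx, rfl⟩
    intro x
    have h2 : x ∈ Subfield.closure (S : Set F) := by rw [hS]; trivial
    exact h1 h2
  let nf : NormedField M := NormedField.induced M (AlgebraicClosure L) M.val M.val.injective
  have hnorm : ∀ x : M, ‖x‖ = ‖(x : AlgebraicClosure L)‖ := fun x => rfl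
  have halg : ∀ x : L, ‖algebraMap L M x‖ = ‖x‖ := by
    intro x
    rw [hnorm]
    exact spectralNorm_extends x
  let nnf : NontriviallyNormedField M :=
    { nf with
      non_trivial := by
        obtain ⟨y, hy⟩ := NormedField.exists_one_lt_norm L
        exact ⟨algebraMap L M y, by rw [halg]; exact hy⟩ }
  let ns : NormedSpace L M :=
    { norm_smul_le := by
        intro a b
        rw [Algebra.smul_def, norm_mul]
        exact le_of_eq (congrArg (fun t => t * ‖b‖) (halg a)) }
  have hprop : ProperSpace M := FiniteDimensional.proper L M
  refine ⟨M, nnf, hprop, σ.codRestrict M.toSubfield hmem, ?_⟩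
  intro x
  rfl

end Pool.Agent.Helper40.Nil
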