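import Mathlib
import Pool.Agent.Helper40.Nil.Stmts3

/-! Module TITSP. -/

set_option autoImplicit false

namespace Pool.Agent.Helper40.Nil

universe u

/-- Tits's lemma in characteristic `p` -/
theorem st_TITSP (hL : ST_LSER) (hE : ST_EXTP.{u, 0}) (hF : ST_FINL.{u}) : ST_TITSP.{u} := by
  intro p _ F _ _ S hS ρ h0 hroot
  have hcount : Countable F := by
    have h1 : Cardinal.mk (Subfield.closure (S : Set F)) ≤ Cardinal.aleph0 := by
      refine le_trans (Subfield.cardinalMk_closure_le_max _) ?_
      apply max_le _ le_rfl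
      exact Cardinal.mk_le_aleph0_iff.2 (S.finite_toSet.countable.to_subtype)
    rw [hS] at h1
    have h2 : Countable (⊤ : Subfield F) := Cardinal.mk_le_aleph0_iff.1 h1
    have h3 : Function.Injective (fun x : F => (⟨x, trivial⟩ : (⊤ : Subfield F))) := by
      intro a b hab
      exact congrArg Subtype.val hab
    exact h3.countable
  obtain ⟨L, nL, pL, uL, cL, hunc⟩ := hL p
  have cΩ : CharP (AlgebraicClosure L) p := charP_of_injective_algebraMap (algebraMap L (AlgebraicClosure L)).injective p
  have hunc' : Uncountable (AlgebraicClosure L) :=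
    (algebraMap L (AlgebraicClosure L)).injective.uncountable
  obtain ⟨y, hy⟩ := NormedField.exists_one_lt_norm L
  have hpow : ∀ n : ℕ, 1 ≤ n → 1 < ‖y ^ n‖ := by
    intro n hn
    rw [norm_pow]
    exact one_lt_pow₀ hy (by omega)
  obtain ⟨σ, hσ⟩ := hE p F ρ (AlgebraicClosure L) (algebraMap L (AlgebraicClosure L) y) h0 hroot
    (by
      intro h
      have h1 : y = 0 := (map_eq_zero _).1 h
      rw [h1, norm_zero] at hy
      linarith)
    (by
      intro n hn h
      rw [← map_pow] at h
      have h1 : y ^ n = 1 := (algebraMap L (AlgebraicClosure L)).injective (by rw [h, map_one])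
      have h2 := hpow n hn
      rw [h1, norm_one] at h2
      exact lt_irrefl _ h2)
  obtain ⟨k, h1, h2, σ', hσ'⟩ := hF L F S hS σ
  refine ⟨k, h1, h2, σ', ?_⟩
  rw [hσ', hσ, spectralNorm_extends]
  exact hy.ne'

end Pool.Agent.Helper40.Nil
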